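import Pool.Agent.N105.LT.Defs

/-!
# Project LG: the slice Fisher information for one function
-/

set_option autoImplicit false

open MeasureTheory Set Filter Topology Real
open scoped Matrix

namespace Pool.Agent.N935.LG
open LTd Pool.Agent.N105.LT

theorem trSPR {n : ℕ} (u v : Fin n → ℝ) (P : Mat n) :
    ((Matrix.of fun i j => v i * u j : Mat n) * P * (Matrix.of fun i j => u i * u j : Mat n)).trace =
      (∑ i, u i * v i) * (u ⬝ᵥ (P *ᵥ u)) := by
  change (Matrix.vecMulVec v u * P * Matrix.vecMulVec u u).trace = _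
  rw [Matrix.mul_vecMulVec, Matrix.trace_vecMulVec, ← Matrix.mulVec_mulVec,
    Matrix.vecMulVec_mulVec]
  simp only [MulOpposite.smul_eq_mul_unop, MulOpposite.unop_op, dotProduct, Pi.smul_apply]
  rw [Finset.sum_mul]
  refine Finset.sum_congr rfl fun i _ => ?_
  ring

theorem trPRPRR {n : ℕ} (u : Fin n → ℝ) (P : Mat n) :
    (P * (Matrix.of fun i j => u i * u j : Mat n) * P *
      ((Matrix.of fun i j => u i * u j : Mat n) * (Matrix.of fun i j => u i * u j : Mat n))).trace =
      (∑ i, u i ^ 2) * (u ⬝ᵥ (P *ᵥ u)) ^ 2 := by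
  change (P * Matrix.vecMulVec u u * P * (Matrix.vecMulVec u u * Matrix.vecMulVec u u)).trace = _
  have h1 : (Matrix.vecMulVec u u * Matrix.vecMulVec u u : Mat n) =
      (∑ i, u i ^ 2) • Matrix.vecMulVec u u := by
    rw [Matrix.mul_vecMulVec, Matrix.vecMulVec_mulVec]
    ext i j
    simp only [Matrix.vecMulVec_apply, MulOpposite.smul_eq_mul_unop, MulOpposite.unop_op,
      Pi.smul_apply, Matrix.smul_apply, smul_eq_mul, dotProduct]
    have : ∑ x, u x * u x = ∑ x, u x ^ 2 := Finset.sum_congr rfl fun x _ => (pow_two _).symm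
    rw [this]
    ring
  rw [h1, Matrix.mul_smul, Matrix.trace_smul, smul_eq_mul]
  congr 1
  rw [Matrix.mul_vecMulVec, Matrix.trace_vecMulVec, ← Matrix.mulVec_mulVec,
    ← Matrix.mulVec_mulVec, Matrix.vecMulVec_mulVec, Matrix.mulVec_smul]
  simp only [MulOpposite.smul_eq_mul_unop, MulOpposite.unop_op, dotProduct, Pi.smul_apply]
  rw [pow_two]
  rw [Finset.sum_mul]
  refine Finset.sum_congr rfl fun i _ => ?_
  ring

theorem fi1 {n : ℕ} (u v : Fin n → ℝ) :
    Fi (Matrix.of fun i j => u i * u j : Mat n) (Matrix.of fun i j => v i * u j : Mat n) =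
      (∑ i, u i * v i) ^ 2 / ∑ i, u i ^ 2 := by
  unfold Fi
  simp only [trSPR, trPRPRR]
  set s := ∑ i, u i * v i with hs
  set r := ∑ i, u i ^ 2 with hr
  have : Nonempty {P : Mat n // ∀ i j, P i j = P j i} := ⟨⟨0, fun i j => rfl⟩⟩
  have hr0 : 0 ≤ r := Finset.sum_nonneg fun i _ => sq_nonneg _
  rcases hr0.eq_or_lt with h0 | hpos
  · have hu : ∀ i, u i = 0 := by
      intro i
      have := (Finset.sum_eq_zero_iff_of_nonneg (fun i _ => sq_nonneg (u i))).1 h0.symm i
        (Finset.mem_univ i)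
      exact pow_eq_zero_iff (two_ne_zero) |>.1 this
    have hs0 : s = 0 := by
      rw [hs]
      exact Finset.sum_eq_zero fun i _ => by rw [hu i, zero_mul]
    rw [hs0, ← h0]
    simp
  · have key : ∀ t : ℝ, 2 * (s * t) - r * t ^ 2 ≤ s ^ 2 / r := by
      intro t
      rw [le_div_iff₀ hpos]
      nlinarith [sq_nonneg (s - r * t)]
    apply le_antisymm
    · exact ciSup_le fun P => key _
    · have hP : ∀ i j, ((s / r ^ 3) • Matrix.vecMulVec u u : Mat n) i j =
          ((s / r ^ 3) • Matrix.vecMulVec u u : Mat n) j i := by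
        intro i j
        simp only [Matrix.smul_apply, Matrix.vecMulVec_apply, smul_eq_mul]
        ring
      have ht : u ⬝ᵥ (((s / r ^ 3) • Matrix.vecMulVec u u : Mat n) *ᵥ u) = s / r := by
        rw [Matrix.smul_mulVec, Matrix.vecMulVec_mulVec, dotProduct_smul, dotProduct_smul]
        have : u ⬝ᵥ u = r := Finset.sum_congr rfl fun x _ => (pow_two _).symm
        rw [this]
        simp only [MulOpposite.smul_eq_mul_unop, MulOpposite.unop_op, smul_eq_mul]
        field_simp
      refine le_ciSup_of_le ⟨s ^ 2 / r, ?_⟩ ⟨_, hP⟩ ?_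
      · rintro _ ⟨P, rfl⟩
        exact key _
      · rw [ht]
        apply le_of_eq
        field_simp
        ring

end Pool.Agent.N935.LG
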